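import Mathlib
import Pool.Agent.MP_925109_lc.Final

/-!
For every fixed `k`, the truth of QCNF formulas of maximal deficiency at most `k` is decidable in
deterministic polynomial time.
-/

set_option autoImplicit false

namespace Pool.Agent.Results.MP_925109_lc.BoundedDefTruth

open Pool.Agent.MP_925109_lc Pool.Agent.Lib.helper60

/-- For every `k` the set of codes of true formulas of maximal deficiency at most `k` is in P. -/
theorem result (k : ℕ) :
    InP {w : List Bool | ∃ Φ : QCNF, Codes w Φ ∧ (∀ S ⊆ Φ.mat, Φ.defOf S ≤ (k : ℤ)) ∧ Φ.IsTrue} :=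
  truth_inP k

end Pool.Agent.Results.MP_925109_lc.BoundedDefTruth
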