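import Mathlib
import Pool.Agent.MP_925109_lc.Final

/-!
For every fixed `k ≥ 1`, minimal false QCNF formulas of deficiency `k` are recognisable in
deterministic polynomial time.
-/

set_option autoImplicit false

namespace Pool.Agent.Results.MP_925109_lc.MinimalFalsePoly

open Pool.Agent.MP_925109_lc Pool.Agent.Lib.helper60

/-- For every `k ≥ 1` the set of codes of minimal false formulas of deficiency `k` is in P, both
for the deficiency counting the existential variables that occur, and for formulas in which all
variables of the prefix occur with the deficiency counting the existential variables of the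
prefix. -/
theorem result (k : ℕ) (_hk : 1 ≤ k) :
    InP {w : List Bool | ∃ Φ : QCNF, Codes w Φ ∧ Φ.MinimalFalse ∧ Φ.deficiency = (k : ℤ)} ∧
    InP {w : List Bool | ∃ Φ : QCNF, Codes w Φ ∧ Φ.AllOccur ∧ Φ.MinimalFalse ∧
      Φ.prefixDeficiency = (k : ℤ)} :=
  ⟨mf_inP k, mf_allOccur_inP k⟩

end Pool.Agent.Results.MP_925109_lc.MinimalFalsePoly
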